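import Pool.Agent.H.MP_da2089_gt.Main

set_option autoImplicit false

namespace Pool.Agent.Results.MP_34945e_gt.Main

open Set Pool.Agent.H.MP_da2089_gt

def IsBallean {X : Type*} (ℰ : Set (Set (X × X))) : Prop :=
  (∀ E ∈ ℰ, ∀ x, (x, x) ∈ E) ∧
    (∀ E ∈ ℰ, ∀ F ∈ ℰ, ∃ D ∈ ℰ, ∀ x y z, (x, y) ∈ E → (z, y) ∈ F → (x, z) ∈ D) ∧
    ∀ x y, ∃ E ∈ ℰ, (x, y) ∈ E

def Bounded {X : Type*} (ℰ : Set (Set (X × X))) (B : Set X) : Prop :=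
  ∃ E ∈ ℰ, ∃ x, B ⊆ {y | (x, y) ∈ E}

def prod {X Y : Type*} (ℰ : Set (Set (X × X))) (ℱ : Set (Set (Y × Y))) :
    Set (Set ((X × Y) × (X × Y))) :=
  {G | ∃ E ∈ ℰ, ∃ F ∈ ℱ, G = {p | (p.1.1, p.2.1) ∈ E ∧ (p.1.2, p.2.2) ∈ F}}

def BddOsc {X : Type*} (ℰ : Set (Set (X × X))) (f : X → ℝ) : Prop :=
  ∃ C > 0, ∀ E ∈ ℰ, ∃ B, Bounded ℰ B ∧ ∀ x ∉ B, ∀ a b, (x, a) ∈ E → (x, b) ∈ E → |f a - f b| ≤ C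

def BoBounded {X : Type*} (ℰ : Set (Set (X × X))) : Prop :=
  ∀ f, BddOsc ℰ f → ∃ B, Bounded ℰ B ∧ ∃ M, ∀ x ∉ B, |f x| ≤ M

theorem result {X Y : Type*} [Nonempty X] [Nonempty Y] (ℰ : Set (Set (X × X)))
    (ℱ : Set (Set (Y × Y))) (hE : IsBallean ℰ) (hF : IsBallean ℱ) (hX : BoBounded ℰ)
    (hY : BoBounded ℱ) : BoBounded (prod ℰ ℱ) := by
  rintro f ⟨C, hC, hf⟩
  obtain ⟨x₀⟩ := ‹Nonempty X›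
  obtain ⟨y₀⟩ := ‹Nonempty Y›
  obtain ⟨E₀, h1, -⟩ := hE.2.2 x₀ x₀
  obtain ⟨F₀, h2, -⟩ := hF.2.2 y₀ y₀
  have ho : ∀ E ∈ ℰ, ∀ F ∈ ℱ, Osc2 ℰ ℱ (fun x y => f (x, y)) E F C :=
    fun E h F h' => osc2 (𝒢 := prod ℰ ℱ) (fun _ ⟨E, h, F, h', e⟩ => ⟨E, h, F, h', e.subset⟩)
      (hf _ ⟨E, h, F, h', rfl⟩)
  obtain ⟨E, h1, F, h2, q, h3⟩ := main (good_of_base hE.1 hE.2.1 hE.2.2)
    (good_of_base hF.1 hF.2.1 hF.2.2) x₀ y₀ (fun E h F h' => ⟨C, ho E h F h'⟩)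
    (fun u hu => hX u ⟨C, hC, fun E h => (ho E h _ h2).lip hC.le (hF.1 _ h2) hu⟩)
    fun u hu => hY u ⟨C, hC, fun F h => (ho _ h1 F h).symm.lip hC.le (hE.1 _ h1) hu⟩
  exact ⟨_, ⟨_, ⟨E, h1, F, h2, rfl⟩, q, subset_rfl⟩, h3⟩

end Pool.Agent.Results.MP_34945e_gt.Main
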